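import Mathlib
import Pool.Agent.Lib.MP_d04ad0_an.Defs
import Pool.Agent.Lib.MP_d04ad0_an.Ftil
import Pool.Agent.Lib.MP_d04ad0_an.Gamma
import Pool.Agent.Lib.MP_d04ad0_an.Family
import Pool.Agent.Lib.MP_d04ad0_an.Endpoint
import Pool.Agent.Lib.MP_d04ad0_an.Assemble

open Set Filter Topology

namespace Pool.Agent.Results.MP_d04ad0_an.EntropyValues

open Pool.Agent.Lib.MP_d04ad0_an

theorem gamma_max (t : ℝ) (ht0 : 1 / 2 ≤ t) (ht1 : t < 1) (ht3 : t + t ^ 3 ≤ 1) :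
    ∃ G : ℝ → ℝ, ContinuousOn G (Icc 0 1) ∧ StrictAntiOn G (Icc 0 1) ∧ G 0 = 1 ∧ G 1 = 0 ∧
      (∀ v ∈ Icc (0 : ℝ) 1, G (1 / (2 - v)) = t * G v) ∧
      (∀ v ∈ Icc (0 : ℝ) 1, G (v / (1 + v)) = max (t + t ^ 3 * G v) (1 - t + t * G v)) := by
  have htpos : 0 < t := by linarith
  have ht3pos : 0 < t ^ 3 := by positivity
  have ht3t : t ^ 3 ≤ t := by nlinarith [mul_nonneg htpos.le (by nlinarith : (0 : ℝ) ≤ 1 - t ^ 2)]
  apply exists_gamma t htpos ht1 (fun g => max (t + t ^ 3 * g) (1 - t + t * g))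
  · intro x _ y _ hxy
    apply max_lt_max
    · nlinarith
    · nlinarith
  · simp only [mul_zero, add_zero]
    exact max_eq_left (by linarith)
  · simp only [mul_one]
    rw [max_eq_right (by linarith)]; ring
  · intro x _ y _
    refine (abs_max_sub_max_le_max _ _ _ _).trans ?_
    apply max_le
    · have : t + t ^ 3 * x - (t + t ^ 3 * y) = t ^ 3 * (x - y) := by ring
      rw [this, abs_mul, abs_of_pos ht3pos]
      exact mul_le_mul_of_nonneg_right ht3t (abs_nonneg _)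
    · have : 1 - t + t * x - (1 - t + t * y) = t * (x - y) := by ring
      rw [this, abs_mul, abs_of_pos htpos]

/-- the case `t + t ^ 3 = 1` -/
theorem endpoint (t : ℝ) (ht0 : 1 / 2 ≤ t) (ht1 : t < 1) (ht3 : t + t ^ 3 = 1) (e : ℝ)
    (he : e = -1 ∨ e = 1) : HasEntropy (ftil e (-1) 0) (Real.log t⁻¹) := by
  obtain ⟨G, hGc, hGs, G0, G1, hG1, hG2⟩ := gamma_max t ht0 ht1 ht3.le
  have hka : kc (-1) = -(1 / 2) := by rw [kc]; norm_num
  have hkb : kc 0 = 0 := by rw [kc]; norm_num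
  have htpos : 0 < t := by linarith
  have hmem : ∀ v ∈ Icc (0 : ℝ) 1, G v ≤ 1 := by
    intro v hv
    rw [← G0]
    exact hGs.antitoneOn ⟨le_rfl, zero_le_one⟩ hv hv.1
  obtain ⟨W, hW, hWc, h0, h1, h4⟩ := exists_W_endpoint t htpos ht3 G hGc hGs G0 G1 hG1
    (by
      intro v hv
      rw [hG2 v hv]
      apply max_eq_left
      have := hmem v hv
      have h5 : t ^ 3 = 1 - t := by linarith
      rw [h5]
      nlinarith) (ftil e (-1) 0)
    (fun u hu => ftil_zero e (-1) 0 u hka.le hu.1 (by rw [hka]; exact hu.2))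
    (fun u hu => ftil_one e (-1) 0 u hkb.ge (by rw [hka]; exact hu.1) hu.2)
    (fun u hu => ftil_four e (-1) 0 u (by rw [hka]; norm_num) hu.1 (by rw [hkb]; exact hu.1) hu.2)
    (fun u hu => ftil_five e (-1) 0 u (by rw [hka]; norm_num) (by rw [hkb]; linarith [hu.1]) hu.1 hu.2)
  refine entropy_ftil e (-1) 0 t⁻¹ he hka.le hkb.ge (by rw [hkb]; norm_num)
    ((one_lt_inv₀ htpos).2 ht1) W hW hWc ?_ ?_ ?_ ?_
  · rw [hka]; exact h0
  · rw [hka]; exact h1
  · rw [hkb]; intro x hx; exact absurd (hx.1.trans hx.2) (lt_irrefl _)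
  · rw [hkb]; exact h4

/-- the case `t + t ^ 3 < 1 ≤ t + t ^ 2` -/
theorem interior (t : ℝ) (ht0 : 1 / 2 ≤ t) (ht1 : t < 1) (ht3 : t + t ^ 3 < 1)
    (ht2 : 1 ≤ t + t ^ 2) :
    ∃ a b : ℝ, (a, b) ∈ params ∧ ∀ e : ℝ, (e = -1 ∨ e = 1) →
      HasEntropy (ftil e a b) (Real.log t⁻¹) := by
  obtain ⟨G, hGc, hGs, G0, G1, hG1, hG2⟩ := gamma_max t ht0 ht1 ht3.le
  have htpos : 0 < t := by linarith
  have h1t2 : 0 < 1 - t ^ 2 := by nlinarith
  have hden : 0 < t * (1 - t ^ 2) := by positivity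
  set gD : ℝ := (2 * t - 1) / (t * (1 - t ^ 2)) with hgD
  have hgD' : gD * (t * (1 - t ^ 2)) = 2 * t - 1 := div_mul_cancel₀ _ hden.ne'
  have hGhalf : G (1 / 2) = t := by
    have := hG1 0 ⟨le_rfl, zero_le_one⟩
    rw [G0, mul_one, sub_zero] at this
    exact this
  have hgDt : t ≤ gD := by
    rw [hgD, le_div_iff₀ hden]
    nlinarith [mul_nonneg (by linarith : (0 : ℝ) ≤ t + t ^ 2 - 1)
      (by nlinarith : (0 : ℝ) ≤ t ^ 2 + 1 - t)]
  have hgD1 : gD < 1 := by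
    rw [hgD, div_lt_one hden]; nlinarith
  obtain ⟨β, hβm, hβ⟩ : gD ∈ G '' Icc 0 (1 / 2) := by
    apply intermediate_value_Icc' (by norm_num)
      (hGc.mono (Icc_subset_Icc le_rfl (by norm_num)))
    rw [hGhalf, G0]
    exact ⟨hgDt, hgD1.le⟩
  have hβ0 : 0 < β := by
    rcases eq_or_lt_of_le hβm.1 with h | h
    · rw [← h, G0] at hβ; linarith
    · exact h
  have h1β : 0 < 1 - β := by linarith [hβm.2]
  set b : ℝ := β / (1 - β) with hb
  set a : ℝ := -((1 - β) / β) with ha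
  have hb0 : 0 ≤ b := by rw [hb]; positivity
  have hA1 : 1 ≤ (1 - β) / β := by rw [le_div_iff₀ hβ0]; linarith [hβm.2]
  have ha0 : a ≤ 0 := by rw [ha]; linarith
  have hkb : kc b = β := by
    rw [kc_nonneg hb0, hb]
    have : 1 + β / (1 - β) = 1 / (1 - β) := by field_simp; ring
    rw [this]; field_simp
  have hka : kc a = β - 1 := by
    rw [kc_nonpos ha0, ha]
    have : 1 - -((1 - β) / β) = 1 / β := by field_simp; ring
    rw [this]; field_simp; ring
  refine ⟨a, b, ⟨ha0, hb0, ?_, ?_⟩, ?_⟩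
  · change 1 ≤ b - a
    rw [ha]; linarith
  · change -(a * b) ≤ 1
    have : a * b = -1 := by rw [ha, hb]; field_simp
    rw [this]; norm_num
  · intro e he
    have hka' : kc a ≤ -(1 / 2) := by rw [hka]; linarith [hβm.2]
    have hka0 : kc a ≤ 0 := by linarith
    obtain ⟨W, hW, hWc, h0, h1, h3, h4⟩ := exists_W_family t t⁻¹ β gD ht0 ht1
      (inv_mul_cancel₀ htpos.ne') hgD' hβ0 hβm.2 G hGc hGs G0 G1 hG1 hG2 hβ (ftil e a b)
      (fun u hu => ftil_zero e a b u hka' hu.1 (by rw [hka]; exact hu.2))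
      (fun u hu => ftil_one e a b u (by rw [hkb]; exact hβ0.le) (by rw [hka]; exact hu.1) hu.2)
      (fun u hu => ftil_three e a b u hka0 hu.1 (by rw [hkb]; exact hu.2))
      (fun u hu => ftil_four e a b u hka0 (hβ0.le.trans hu.1) (by rw [hkb]; exact hu.1) hu.2)
      (fun u hu => ftil_five e a b u hka0 (by rw [hkb]; exact hβm.2.trans hu.1) hu.1 hu.2)
    refine entropy_ftil e a b t⁻¹ he hka' (by rw [hkb]; exact hβ0.le) (by rw [hkb]; exact hβm.2)
      ((one_lt_inv₀ htpos).2 ht1) W hW hWc ?_ ?_ ?_ ?_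
    · rw [hka]; exact h0
    · rw [hka]; exact h1
    · rw [hkb]; exact h3
    · rw [hkb]; exact h4

/-- Every `h` between `log κ` and `log φ` is the topological entropy of some `f_{a,b}` with
`(a, b)` in the parameter set. -/
theorem result (κ : ℝ) (hκ : κ ^ 3 - κ ^ 2 - 1 = 0) (h : ℝ) (h1 : Real.log κ ≤ h)
    (h2 : h ≤ Real.log Real.goldenRatio) :
    ∃ a b : ℝ, (a, b) ∈ params ∧ ∀ e : ℝ, (e = -1 ∨ e = 1) → HasEntropy (ftil e a b) h := by
  have hκ1 : 1 < κ := by nlinarith [sq_nonneg κ]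
  have hφ := Real.goldenRatio_sq
  have hφpos := Real.goldenRatio_pos
  set l : ℝ := Real.exp h with hl
  have hlog : Real.log l = h := Real.log_exp h
  have hlκ : κ ≤ l := (Real.log_le_iff_le_exp (by linarith)).1 h1
  have hlφ : l ≤ Real.goldenRatio := (Real.le_log_iff_exp_le hφpos).1 h2
  have hl1 : 1 < l := by linarith
  have hlpos : 0 < l := by linarith
  have hl2 : l ≤ 2 := hlφ.trans Real.goldenRatio_lt_two.le
  set t : ℝ := l⁻¹ with ht
  have htl : t * l = 1 := inv_mul_cancel₀ hlpos.ne'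
  have htpos : 0 < t := inv_pos.2 hlpos
  have htinv : t⁻¹ = l := inv_inv l
  have ht1 : t < 1 := inv_lt_one_of_one_lt₀ hl1
  have ht0 : 1 / 2 ≤ t := by
    rw [ht, one_div]; exact inv_anti₀ hlpos hl2
  have ht2 : 1 ≤ t + t ^ 2 := by
    have h3 : l ^ 2 ≤ l + 1 := by
      nlinarith
    have h4 : t ^ 2 * l ^ 2 = 1 := by rw [← mul_pow, htl]; norm_num
    have h5 : t ^ 2 * l ^ 2 ≤ t ^ 2 * (l + 1) := mul_le_mul_of_nonneg_left h3 (by positivity)
    have h6 : t ^ 2 * (l + 1) = t * (t * l) + t ^ 2 := by ring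
    rw [h6, htl] at h5
    linarith
  rcases eq_or_lt_of_le hlκ with heq | hlt
  · have ht3 : t + t ^ 3 = 1 := by
      have h3 : t ^ 3 * (l ^ 3 - l ^ 2 - 1) = 0 := by rw [← heq, hκ]; ring
      have h4 : t ^ 3 * (l ^ 3 - l ^ 2 - 1) = (t * l) ^ 3 - t * (t * l) ^ 2 - t ^ 3 := by ring
      rw [h4, htl] at h3
      linarith
    refine ⟨-1, 0, ⟨?_, ?_, ?_, ?_⟩, fun e he => ?_⟩
    · norm_num
    · norm_num
    · norm_num
    · norm_num
    · have := endpoint t ht0 ht1 ht3 e he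
      rwa [htinv, hlog] at this
  · have ht3 : t + t ^ 3 < 1 := by
      have h3 : 0 < l ^ 3 - l ^ 2 - 1 := by
        have : l ^ 3 - l ^ 2 - 1 = (l - κ) * (l ^ 2 + l * κ + κ ^ 2 - l - κ) := by
          linear_combination hκ
        rw [this]
        apply mul_pos (by linarith)
        nlinarith
      have h4 : t ^ 3 * (l ^ 3 - l ^ 2 - 1) = (t * l) ^ 3 - t * (t * l) ^ 2 - t ^ 3 := by ring
      have h5 : 0 < t ^ 3 * (l ^ 3 - l ^ 2 - 1) := by positivity
      rw [h4, htl] at h5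
      linarith
    obtain ⟨a, b, hab, hE⟩ := interior t ht0 ht1 ht3 ht2
    refine ⟨a, b, hab, fun e he => ?_⟩
    have := hE e he
    rwa [htinv, hlog] at this

end Pool.Agent.Results.MP_d04ad0_an.EntropyValues
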